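import Pool.Agent.L7h24.AV.Stm
import Pool.Agent.H373R2.T7.BilF
import Pool.Agent.H373R2.T7.Lin

/-!
# Project AP (helper24), part FA: Fourier analysis on the grid `t / Z`
-/

set_option autoImplicit false

namespace Pool.Agent.L7h56.AV

open Finset
open Pool.Agent.H373R2.T7 (orth conj_ee sq_expand parseval_Icc)
open Pool.Agent.H807R2.Dav
open Pool.Agent.L7h24.AV

/-- the transform of `f` -/
noncomputable def Fh (f : ℕ → ℝ) (Z : ℕ) (α : ℝ) : ℂ :=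
  ∑ n ∈ Icc 1 Z, ((f n : ℝ) : ℂ) * ee ((n : ℝ) * α)

/-- the transform of the weights -/
noncomputable def Sh (I : Finset ℕ) (w : ℕ → ℝ) (t : ℕ → ℕ) (α : ℝ) : ℂ :=
  ∑ i ∈ I, ((w i : ℝ) : ℂ) * ee (-((t i : ℝ) * α))

/-- inversion on the grid -/
lemma inversion (f : ℕ → ℝ) (Z m : ℕ) (hm : 1 ≤ m) (hmZ : m ≤ Z) :
    ∑ τ ∈ range Z, Fh f Z ((τ : ℝ) / Z) * ee (-((m : ℝ) * ((τ : ℝ) / Z))) = (Z : ℂ) * (f m : ℂ) := by
  have hZ : 1 ≤ Z := hm.trans hmZ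
  have h1 : ∀ τ ∈ range Z, Fh f Z ((τ : ℝ) / Z) * ee (-((m : ℝ) * ((τ : ℝ) / Z))) =
      ∑ n ∈ Icc 1 Z, (f n : ℂ) * ee ((τ : ℝ) * ((((n : ℤ) - m : ℤ) : ℝ) / Z)) := by
    intro τ _
    rw [Fh, sum_mul]
    refine sum_congr rfl fun n _ => ?_
    rw [mul_assoc, ← ee_add]
    congr 2
    push_cast
    ring
  rw [sum_congr rfl h1, sum_comm]
  have h2 : ∀ n ∈ Icc 1 Z, ∑ τ ∈ range Z, (f n : ℂ) * ee ((τ : ℝ) * ((((n : ℤ) - m : ℤ) : ℝ) / Z)) =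
      if n = m then (Z : ℂ) * (f m : ℂ) else 0 := by
    intro n hn
    rw [← mul_sum, orth Z hZ]
    rw [mem_Icc] at hn
    by_cases h3 : n = m
    · subst h3
      rw [if_pos (by simp), if_pos rfl, mul_comm]
    · rw [if_neg h3, if_neg, mul_zero]
      intro hd
      have h4 : |(n : ℤ) - m| < Z := by rw [abs_lt]; constructor <;> omega
      have := Int.eq_zero_of_abs_lt_dvd hd h4
      omega
  rw [sum_congr rfl h2, sum_ite_eq' (Icc 1 Z) m, if_pos (mem_Icc.2 ⟨hm, hmZ⟩)]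

/-- Bessel's inequality for the values of `∑ w_i f(t_i + b)` -/
lemma bessel (f : ℕ → ℝ) (Z B : ℕ) (hB : 1 ≤ B) (hBZ : B ≤ Z) (I : Finset ℕ) (w : ℕ → ℝ)
    (t : ℕ → ℕ) (ht : ∀ i ∈ I, t i + B ≤ Z) :
    ∑ b ∈ Icc 1 B, (∑ i ∈ I, w i * f (t i + b)) ^ 2 ≤
      (Z : ℝ)⁻¹ * ∑ τ ∈ range Z, ‖Fh f Z ((τ : ℝ) / Z)‖ ^ 2 * ‖Sh I w t ((τ : ℝ) / Z)‖ ^ 2 := by
  have hZ : 1 ≤ Z := hB.trans hBZ
  have hZ0 : (0 : ℝ) < Z := by exact_mod_cast hZ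
  set u : ℕ → ℝ := fun b => ∑ i ∈ I, w i * f (t i + b) with hu
  set U : ℝ := ∑ b ∈ Icc 1 B, u b ^ 2 with hU
  show U ≤ _
  set R : ℝ := ∑ τ ∈ range Z, ‖Fh f Z ((τ : ℝ) / Z)‖ ^ 2 * ‖Sh I w t ((τ : ℝ) / Z)‖ ^ 2 with hR
  have hU0 : 0 ≤ U := sum_nonneg fun _ _ => sq_nonneg _
  have hR0 : 0 ≤ R := sum_nonneg fun _ _ => by positivity
  set G : ℝ → ℂ := fun α => ∑ b ∈ Icc 1 B, ((u b : ℝ) : ℂ) * ee (-((b : ℝ) * α)) with hG
  -- the main identity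
  have h1 : ∑ τ ∈ range Z, Fh f Z ((τ : ℝ) / Z) * Sh I w t ((τ : ℝ) / Z) * G ((τ : ℝ) / Z) =
      ((Z * U : ℝ) : ℂ) := by
    have h2 : ∀ τ ∈ range Z, Fh f Z ((τ : ℝ) / Z) * Sh I w t ((τ : ℝ) / Z) * G ((τ : ℝ) / Z) =
        ∑ b ∈ Icc 1 B, ∑ i ∈ I, (u b : ℂ) * (w i : ℂ) *
          (Fh f Z ((τ : ℝ) / Z) * ee (-(((t i + b : ℕ) : ℝ) * ((τ : ℝ) / Z)))) := by
      intro τ _
      rw [hG, Sh]
      simp only
      rw [mul_assoc, sum_mul_sum, sum_comm, mul_sum]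
      simp only [mul_sum]
      refine sum_congr rfl fun b _ => sum_congr rfl fun i _ => ?_
      have h3 : ee (-(((t i + b : ℕ) : ℝ) * ((τ : ℝ) / Z))) =
          ee (-((t i : ℝ) * ((τ : ℝ) / Z))) * ee (-((b : ℝ) * ((τ : ℝ) / Z))) := by
        rw [← ee_add]
        congr 1
        push_cast
        ring
      rw [h3]
      ring
    rw [sum_congr rfl h2, sum_comm]
    have h4 : ∀ b ∈ Icc 1 B, ∑ τ ∈ range Z, ∑ i ∈ I, (u b : ℂ) * (w i : ℂ) *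
          (Fh f Z ((τ : ℝ) / Z) * ee (-(((t i + b : ℕ) : ℝ) * ((τ : ℝ) / Z)))) =
        (Z : ℂ) * ((u b ^ 2 : ℝ) : ℂ) := by
      intro b hb
      rw [mem_Icc] at hb
      rw [sum_comm]
      have h5 : ∀ i ∈ I, ∑ τ ∈ range Z, (u b : ℂ) * (w i : ℂ) *
          (Fh f Z ((τ : ℝ) / Z) * ee (-(((t i + b : ℕ) : ℝ) * ((τ : ℝ) / Z)))) =
          (Z : ℂ) * (u b : ℂ) * ((w i * f (t i + b) : ℝ) : ℂ) := by
        intro i hi
        have := ht i hi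
        rw [← mul_sum, inversion f Z (t i + b) (by omega) (by omega)]
        push_cast
        ring
      rw [sum_congr rfl h5, ← mul_sum, ← Complex.ofReal_sum]
      rw [show (∑ i ∈ I, w i * f (t i + b)) = u b from rfl]
      push_cast
      ring
    rw [sum_congr rfl h4, ← mul_sum, ← Complex.ofReal_sum, Complex.ofReal_mul]
    rfl
  -- Parseval for the dual function
  have h6 : ∑ τ ∈ range Z, ‖G ((τ : ℝ) / Z)‖ ^ 2 = Z * U := by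
    have h7 := parseval_Icc B Z hZ hBZ (fun b => ((u b : ℝ) : ℂ)) (-1) (Or.inr rfl)
    have h8 : ∀ b ∈ Icc 1 B, ‖((u b : ℝ) : ℂ)‖ ^ 2 = u b ^ 2 := by
      intro b _
      rw [Complex.norm_real, Real.norm_eq_abs, sq_abs]
    rw [sum_congr rfl h8] at h7
    rw [← h7]
    refine sum_congr rfl fun τ _ => ?_
    rw [hG]
    simp only
    congr 2
    refine sum_congr rfl fun b _ => ?_
    congr 2
    push_cast
    ring
  -- Cauchy-Schwarz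
  have h9 : Z * U ≤ ∑ τ ∈ range Z, (‖Fh f Z ((τ : ℝ) / Z)‖ * ‖Sh I w t ((τ : ℝ) / Z)‖) *
      ‖G ((τ : ℝ) / Z)‖ := by
    have h10 : Z * U = ‖((Z * U : ℝ) : ℂ)‖ := by
      rw [Complex.norm_real, Real.norm_eq_abs, abs_of_nonneg (by positivity)]
    rw [h10, ← h1]
    refine (norm_sum_le _ _).trans (le_of_eq (sum_congr rfl fun τ _ => ?_))
    rw [norm_mul, norm_mul]
  have h11 := sum_mul_sq_le_sq_mul_sq (range Z)
    (fun τ => ‖Fh f Z ((τ : ℝ) / Z)‖ * ‖Sh I w t ((τ : ℝ) / Z)‖) (fun τ => ‖G ((τ : ℝ) / Z)‖)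
  have h12 : ∑ τ ∈ range Z, (‖Fh f Z ((τ : ℝ) / Z)‖ * ‖Sh I w t ((τ : ℝ) / Z)‖) ^ 2 = R :=
    sum_congr rfl fun τ _ => mul_pow _ _ _
  rw [h12, h6] at h11
  have h13 : (Z * U) ^ 2 ≤ R * (Z * U) := (pow_le_pow_left₀ (by positivity) h9 2).trans h11
  rcases hU0.lt_or_eq with h14 | h14
  · have h15 : 0 < Z * U := by positivity
    have h16 : Z * U ≤ R := by
      rw [pow_two] at h13
      exact le_of_mul_le_mul_right h13 h15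
    rw [inv_mul_eq_div, le_div_iff₀ hZ0]
    linarith
  · rw [← h14]
    positivity

/-- Parseval for distinct frequencies -/
lemma parseval_S (Z : ℕ) (hZ : 1 ≤ Z) (I : Finset ℕ) (w : ℕ → ℝ) (t : ℕ → ℕ)
    (ht : ∀ i ∈ I, t i < Z) (hinj : Set.InjOn t I) :
    ∑ τ ∈ range Z, ‖Sh I w t ((τ : ℝ) / Z)‖ ^ 2 = Z * ∑ i ∈ I, w i ^ 2 := by
  have h1 := sq_expand I (fun i => ((w i : ℝ) : ℂ)) (fun i => -(t i : ℤ)) Z hZ
  have h2 : ∀ τ ∈ range Z, ‖Sh I w t ((τ : ℝ) / Z)‖ ^ 2 =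
      ‖∑ i ∈ I, ((w i : ℝ) : ℂ) * ee ((τ : ℝ) * (((-(t i : ℤ) : ℤ) : ℝ) / Z))‖ ^ 2 := by
    intro τ _
    rw [Sh]
    congr 2
    refine sum_congr rfl fun i _ => ?_
    congr 2
    push_cast
    ring
  rw [sum_congr rfl h2]
  have h3 : ∑ i ∈ I, ∑ j ∈ I, ((w i : ℝ) : ℂ) * (starRingEnd ℂ) ((w j : ℝ) : ℂ) *
      (if (Z : ℤ) ∣ -(t i : ℤ) - -(t j : ℤ) then (Z : ℂ) else 0) =
      ((Z * ∑ i ∈ I, w i ^ 2 : ℝ) : ℂ) := by
    push_cast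
    rw [mul_sum]
    refine sum_congr rfl fun i hi => ?_
    rw [sum_eq_single i]
    · rw [if_pos (by simp), Complex.conj_ofReal]
      ring
    · intro j hj hne
      rw [if_neg, mul_zero]
      intro hd
      have h4 := ht i hi
      have h5 := ht j hj
      have h6 : |-(t i : ℤ) - -(t j : ℤ)| < Z := by rw [abs_lt]; constructor <;> omega
      have h7 := Int.eq_zero_of_abs_lt_dvd hd h6
      have h8 : t i = t j := by omega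
      exact hne (hinj hi hj h8).symm
    · intro h
      exact absurd hi h
  rw [h3] at h1
  exact_mod_cast h1

/-- **FA** -/
theorem s_FA : S_FA := by
  intro f Z δ hδ I w t B hB ht hinj
  rcases I.eq_empty_or_nonempty with rfl | ⟨i₀, hi₀⟩
  · simp
  have hBZ : B ≤ Z := by
    have := ht i₀ hi₀
    omega
  have hZ : 1 ≤ Z := hB.trans hBZ
  have hZ0 : (0 : ℝ) < Z := by exact_mod_cast hZ
  have hδ0 : 0 ≤ δ := (norm_nonneg _).trans (hδ 0)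
  refine (bessel f Z B hB hBZ I w t ht).trans ?_
  have h1 : ∑ τ ∈ range Z, ‖Fh f Z ((τ : ℝ) / Z)‖ ^ 2 * ‖Sh I w t ((τ : ℝ) / Z)‖ ^ 2 ≤
      ∑ τ ∈ range Z, δ ^ 2 * ‖Sh I w t ((τ : ℝ) / Z)‖ ^ 2 := by
    refine sum_le_sum fun τ _ => ?_
    have h2 : ‖Fh f Z ((τ : ℝ) / Z)‖ ≤ δ := hδ _
    gcongr
  rw [← mul_sum, parseval_S Z hZ I w t (fun i hi => by
    have := ht i hi
    omega) hinj] at h1
  calc (Z : ℝ)⁻¹ * ∑ τ ∈ range Z, ‖Fh f Z ((τ : ℝ) / Z)‖ ^ 2 * ‖Sh I w t ((τ : ℝ) / Z)‖ ^ 2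
      ≤ (Z : ℝ)⁻¹ * (δ ^ 2 * (Z * ∑ i ∈ I, w i ^ 2)) :=
        mul_le_mul_of_nonneg_left h1 (by positivity)
    _ = δ ^ 2 * ∑ i ∈ I, w i ^ 2 := by
      field_simp

end Pool.Agent.L7h56.AV
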