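import Pool.Agent.L7h56.AV.Fa

/-!
# Project AP (helper24), part FB: Fourier analysis with an average over the slopes
-/

set_option autoImplicit false

namespace Pool.Agent.L7h56.AV

open Finset
open Pool.Agent.H373R2.T7 (orth conj_ee sq_expand parseval_Icc KK_mono typeI_lin)
open Pool.Agent.H807R2.Dav
open Pool.Agent.L7h24.AV

/-- `E(α) = ∑_{r ≤ N} KK A (r α)` -/
noncomputable def EK (A N : ℕ) (α : ℝ) : ℝ := ∑ r ∈ Icc 1 N, KK A (r * α)

lemma EK_nonneg (A N : ℕ) (α : ℝ) : 0 ≤ EK A N α :=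
  sum_nonneg fun _ _ => KK_nonneg (Nat.cast_nonneg _) _

lemma EK_le (A N : ℕ) (α : ℝ) : EK A N α ≤ 3 * (A * N) := by
  refine (sum_le_sum fun r _ => KK_le (Nat.cast_nonneg A) _).trans ?_
  rw [sum_const, Nat.card_Icc, nsmul_eq_mul, Nat.add_sub_cancel]
  exact le_of_eq (by ring)

lemma geo (A : ℕ) (x : ℝ) : ‖∑ a ∈ Icc 1 A, ee (a * x)‖ ≤ KK A x := by
  have h := geo_bound 1 (A + 1) (by omega) (M := A) (by push_cast; linarith) x
  have e : Icc 1 A = Ico 1 (A + 1) := by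
    ext a
    simp only [mem_Icc, mem_Ico]
    omega
  rw [e]
  exact h

/-- one row of the off-diagonal part -/
lemma row (A N : ℕ) (α : ℝ) (I : Finset ℕ) (hI : I ⊆ Icc 1 N) (i : ℕ) (hi : i ∈ I) :
    ∑ j ∈ I.erase i, KK A (((j : ℝ) - i) * α) ≤ 2 * EK A N α := by
  have hsplit : I.erase i = I.filter (fun j => i < j) ∪ I.filter (fun j => j < i) := by
    ext j
    simp only [mem_erase, mem_union, mem_filter]
    constructor
    · rintro ⟨h1, h2⟩
      rcases lt_or_gt_of_ne h1 with h3 | h3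
      · exact Or.inr ⟨h2, h3⟩
      · exact Or.inl ⟨h2, h3⟩
    · rintro (⟨h1, h2⟩ | ⟨h1, h2⟩)
      · exact ⟨by omega, h1⟩
      · exact ⟨by omega, h1⟩
  have hdisj : Disjoint (I.filter (fun j => i < j)) (I.filter (fun j => j < i)) := by
    rw [disjoint_filter]
    intro j _ h1
    omega
  rw [hsplit, sum_union hdisj]
  have hi' := mem_Icc.1 (hI hi)
  have h1 : ∑ j ∈ I.filter (fun j => i < j), KK A (((j : ℝ) - i) * α) ≤ EK A N α := by
    have e : ∑ j ∈ I.filter (fun j => i < j), KK A (((j : ℝ) - i) * α) =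
        ∑ r ∈ (I.filter (fun j => i < j)).image (fun j => j - i), KK A ((r : ℝ) * α) := by
      rw [sum_image]
      · refine sum_congr rfl fun j hj => ?_
        rw [mem_filter] at hj
        rw [Nat.cast_sub hj.2.le]
      · intro j hj j' hj' h
        simp only [coe_filter, Set.mem_ofPred_eq] at hj hj'
        simp only at h
        omega
    rw [e]
    apply sum_le_sum_of_subset_of_nonneg
    · intro r hr
      rw [mem_image] at hr
      obtain ⟨j, hj, rfl⟩ := hr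
      rw [mem_filter] at hj
      have := mem_Icc.1 (hI hj.1)
      rw [mem_Icc]
      omega
    · intro r _ _
      exact KK_nonneg (Nat.cast_nonneg _) _
  have h2 : ∑ j ∈ I.filter (fun j => j < i), KK A (((j : ℝ) - i) * α) ≤ EK A N α := by
    have e : ∑ j ∈ I.filter (fun j => j < i), KK A (((j : ℝ) - i) * α) =
        ∑ r ∈ (I.filter (fun j => j < i)).image (fun j => i - j), KK A ((r : ℝ) * α) := by
      rw [sum_image]
      · refine sum_congr rfl fun j hj => ?_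
        rw [mem_filter] at hj
        rw [Nat.cast_sub hj.2.le, ← KK_neg]
        congr 1
        ring
      · intro j hj j' hj' h
        simp only [coe_filter, Set.mem_ofPred_eq] at hj hj'
        simp only at h
        omega
    rw [e]
    apply sum_le_sum_of_subset_of_nonneg
    · intro r hr
      rw [mem_image] at hr
      obtain ⟨j, hj, rfl⟩ := hr
      rw [mem_filter] at hj
      have := mem_Icc.1 (hI hj.1)
      rw [mem_Icc]
      omega
    · intro r _ _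
      exact KK_nonneg (Nat.cast_nonneg _) _
  linarith

/-- the mean square of the sums over the slopes -/
lemma slopes (N A : ℕ) (I : Finset ℕ) (hI : I ⊆ Icc 1 N) (w : ℕ → ℝ) (W : ℝ)
    (hw : ∀ i, |w i| ≤ W) (s : ℕ → ℕ) (α : ℝ) :
    ∑ a ∈ Icc 1 A, ‖Sh I w (fun i => s i + a * i) α‖ ^ 2 ≤
      A * (∑ i ∈ I, w i ^ 2) + 2 * W ^ 2 * N * EK A N α := by
  have hW : 0 ≤ W := (abs_nonneg _).trans (hw 0)
  -- the expansion
  have h1 : (((∑ a ∈ Icc 1 A, ‖Sh I w (fun i => s i + a * i) α‖ ^ 2 : ℝ)) : ℂ) =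
      ∑ i ∈ I, ∑ j ∈ I, ((w i : ℂ) * (w j : ℂ) * ee (((s j : ℝ) - s i) * α)) *
        ∑ a ∈ Icc 1 A, ee ((a : ℝ) * (((j : ℝ) - i) * α)) := by
    push_cast
    have h2 : ∀ a ∈ Icc 1 A, ((‖Sh I w (fun i => s i + a * i) α‖ : ℂ)) ^ 2 =
        ∑ i ∈ I, ∑ j ∈ I, ((w i : ℂ) * (w j : ℂ) * ee (((s j : ℝ) - s i) * α)) *
          ee ((a : ℝ) * (((j : ℝ) - i) * α)) := by
      intro a _
      rw [← Complex.mul_conj', Sh, map_sum, sum_mul_sum]
      refine sum_congr rfl fun i _ => sum_congr rfl fun j _ => ?_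
      rw [map_mul, conj_ee, Complex.conj_ofReal]
      have h3 : ee (((s j : ℝ) - s i) * α) * ee ((a : ℝ) * (((j : ℝ) - i) * α)) =
          ee (-(((s i + a * i : ℕ) : ℝ) * α)) * ee (-(-(((s j + a * j : ℕ) : ℝ) * α))) := by
        rw [← ee_add, ← ee_add]
        congr 1
        push_cast
        ring
      calc (w i : ℂ) * ee (-(((s i + a * i : ℕ) : ℝ) * α)) *
            ((w j : ℂ) * ee (-(-(((s j + a * j : ℕ) : ℝ) * α))))
          = (w i : ℂ) * (w j : ℂ) * (ee (-(((s i + a * i : ℕ) : ℝ) * α)) *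
              ee (-(-(((s j + a * j : ℕ) : ℝ) * α)))) := by ring
        _ = _ := by rw [← h3]; ring
    rw [sum_congr rfl h2, sum_comm]
    refine sum_congr rfl fun i _ => ?_
    rw [sum_comm]
    refine sum_congr rfl fun j _ => ?_
    rw [mul_sum]
  have h2 : ∑ a ∈ Icc 1 A, ‖Sh I w (fun i => s i + a * i) α‖ ^ 2 ≤
      ∑ i ∈ I, ∑ j ∈ I, |w i| * |w j| * ‖∑ a ∈ Icc 1 A, ee ((a : ℝ) * (((j : ℝ) - i) * α))‖ := by
    have h3 : ∑ a ∈ Icc 1 A, ‖Sh I w (fun i => s i + a * i) α‖ ^ 2 =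
        ‖(((∑ a ∈ Icc 1 A, ‖Sh I w (fun i => s i + a * i) α‖ ^ 2 : ℝ)) : ℂ)‖ := by
      rw [Complex.norm_real, Real.norm_eq_abs, abs_of_nonneg (sum_nonneg fun _ _ => sq_nonneg _)]
    rw [h3, h1]
    refine (norm_sum_le _ _).trans (sum_le_sum fun i _ => (norm_sum_le _ _).trans
      (sum_le_sum fun j _ => le_of_eq ?_))
    rw [norm_mul, norm_mul, norm_mul, norm_ee, Complex.norm_real, Complex.norm_real,
      Real.norm_eq_abs, Real.norm_eq_abs, mul_one]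
  refine h2.trans ?_
  have h4 : ∀ i ∈ I, ∑ j ∈ I, |w i| * |w j| *
      ‖∑ a ∈ Icc 1 A, ee ((a : ℝ) * (((j : ℝ) - i) * α))‖ ≤
        A * w i ^ 2 + W ^ 2 * (2 * EK A N α) := by
    intro i hi
    rw [← add_sum_erase I _ hi]
    apply add_le_add
    · have h5 : ‖∑ a ∈ Icc 1 A, ee ((a : ℝ) * (((i : ℝ) - i) * α))‖ ≤ A := by
        refine (norm_sum_le _ _).trans ?_
        simp only [norm_ee, sum_const, Nat.card_Icc, nsmul_eq_mul, mul_one, Nat.add_sub_cancel]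
        exact le_rfl
      calc |w i| * |w i| * ‖∑ a ∈ Icc 1 A, ee ((a : ℝ) * (((i : ℝ) - i) * α))‖
          ≤ |w i| * |w i| * A := mul_le_mul_of_nonneg_left h5 (by positivity)
        _ = A * w i ^ 2 := by rw [abs_mul_abs_self]; ring
    · refine le_trans (b := W ^ 2 * ∑ j ∈ I.erase i, KK A (((j : ℝ) - i) * α)) ?_
        (mul_le_mul_of_nonneg_left (row A N α I hI i hi) (sq_nonneg _))
      rw [mul_sum]
      refine sum_le_sum fun j _ => ?_
      have h5 := geo A (((j : ℝ) - i) * α)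
      have h6 : |w i| * |w j| ≤ W ^ 2 := by
        rw [pow_two]
        exact mul_le_mul (hw i) (hw j) (abs_nonneg _) hW
      exact mul_le_mul h6 h5 (norm_nonneg _) (sq_nonneg _)
  refine (sum_le_sum h4).trans ?_
  rw [sum_add_distrib, ← mul_sum, sum_const, nsmul_eq_mul]
  have h7 : ((I.card : ℕ) : ℝ) ≤ N := by
    have := card_le_card hI
    rw [Nat.card_Icc, Nat.add_sub_cancel] at this
    exact_mod_cast this
  have h8 : 0 ≤ W ^ 2 * (2 * EK A N α) := by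
    have := EK_nonneg A N α
    positivity
  have h9 := mul_le_mul_of_nonneg_right h7 h8
  linarith

/-- large denominators -/
lemma E_big (N A : ℕ) (hN : 1 ≤ N) (hA : 1 ≤ A) (T : ℝ) (hT : 1 ≤ T) {q : ℕ} (hq : 1 ≤ q)
    {c : ℤ} (hcop : IsCoprime c (q : ℤ)) {α : ℝ} (hα : |α - c / q| ≤ 1 / (q : ℝ) ^ 2)
    (hTq : T ≤ q) (hqA : (q : ℝ) ≤ A * N / T) :
    EK A N α ≤ 2400 * ((1 + Real.log (A * N)) ^ 2 * ((A * N) / T + N)) := by
  have hN0 : (1 : ℝ) ≤ N := by exact_mod_cast hN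
  have hA0 : (1 : ℝ) ≤ A := by exact_mod_cast hA
  have hq0 : (1 : ℝ) ≤ q := by exact_mod_cast hq
  have hAN : (1 : ℝ) ≤ A * N := by nlinarith
  have h1 := typeI_lin hq hcop hα (A * N) N (Nat.mul_pos hA hN) hN
  have h2 : EK A N α ≤ ∑ d ∈ Icc 1 N, KK (2 * ((A * N : ℕ) : ℝ) / d) (d * α) := by
    refine sum_le_sum fun r hr => ?_
    rw [mem_Icc] at hr
    have hr0 : (0 : ℝ) < r := by exact_mod_cast (by omega : 0 < r)
    have hrN : (r : ℝ) ≤ N := by exact_mod_cast hr.2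
    apply KK_mono (Nat.cast_nonneg _)
    rw [le_div_iff₀ hr0]
    push_cast
    nlinarith
  refine h2.trans (h1.trans ?_)
  set L : ℝ := 1 + Real.log (A * N) with hL
  have hlog : 0 ≤ Real.log (A * N) := Real.log_nonneg hAN
  have hT0 : 0 < T := by linarith
  have h3 : (Nat.log 2 N + 1 : ℝ) ≤ 2 * L := by
    have h4 : ((Nat.log 2 N : ℕ) : ℝ) ≤ Real.log N / Real.log 2 := by
      have h5 : (2 : ℝ) ^ (Nat.log 2 N) ≤ N := by
        exact_mod_cast Nat.pow_log_le_self 2 (by omega : N ≠ 0)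
      have h6 := Real.log_le_log (by positivity) h5
      rw [Real.log_pow] at h6
      rw [le_div_iff₀ (Real.log_pos (by norm_num))]
      exact h6
    have h5 : Real.log N ≤ Real.log (A * N) := Real.log_le_log (by linarith) (by nlinarith)
    have h6 : (1 / 2 : ℝ) < Real.log 2 := by
      have := Real.log_two_gt_d9
      linarith
    have h7 : Real.log N / Real.log 2 ≤ 2 * Real.log (A * N) := by
      rw [div_le_iff₀ (by linarith)]
      nlinarith [Real.log_nonneg hN0]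
    rw [hL]
    linarith
  have h4 : 1 + Real.log q ≤ L := by
    have h5 : (q : ℝ) ≤ A * N := hqA.trans (div_le_self (by linarith) hT)
    have h6 := Real.log_le_log (by linarith) h5
    rw [hL]
    linarith
  have h5 : (((A * N : ℕ) : ℝ) / q + N + q) ≤ 2 * ((A * N) / T + N) := by
    have h6 : ((A * N : ℕ) : ℝ) / q ≤ (A * N) / T := by
      push_cast
      exact div_le_div_of_nonneg_left (by linarith) hT0 hTq
    linarith
  have h6 : 0 ≤ 1 + Real.log q := by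
    have := Real.log_nonneg hq0
    linarith
  calc 600 * (Nat.log 2 N + 1 : ℝ) * (((A * N : ℕ) : ℝ) / q + N + q) * (1 + Real.log q)
      ≤ 600 * (2 * L) * (2 * ((A * N) / T + N)) * L := by gcongr
    _ = _ := by ring

/-- the number of grid points near a point -/
lemma near (Z : ℕ) (hZ : 1 ≤ Z) (x ρ : ℝ) (hρ : 0 ≤ ρ) :
    (((range Z).filter (fun τ : ℕ => |(τ : ℝ) / Z - x| ≤ ρ)).card : ℝ) ≤ 2 * ρ * Z + 1 := by
  have hZ0 : (0 : ℝ) < Z := by exact_mod_cast hZ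
  have h1 : ((range Z).filter (fun τ : ℕ => |(τ : ℝ) / Z - x| ≤ ρ)).card ≤
      (Icc ⌈(x - ρ) * Z⌉ ⌊(x + ρ) * Z⌋).card := by
    apply card_le_card_of_injOn (fun τ : ℕ => (τ : ℤ))
    · intro τ hτ
      simp only [coe_filter, Set.mem_ofPred_eq] at hτ
      rw [abs_le] at hτ
      rw [coe_Icc, Set.mem_Icc, Int.ceil_le, Int.le_floor]
      have h2 : (τ : ℝ) = (τ : ℝ) / Z * Z := by field_simp
      push_cast
      constructor
      · rw [h2]
        exact mul_le_mul_of_nonneg_right (by linarith [hτ.2.1]) hZ0.le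
      · rw [h2]
        exact mul_le_mul_of_nonneg_right (by linarith [hτ.2.2]) hZ0.le
    · intro a _ b _ h
      have h' : (a : ℤ) = (b : ℤ) := h
      exact_mod_cast h'
  have h2 : (((Icc ⌈(x - ρ) * Z⌉ ⌊(x + ρ) * Z⌋).card : ℕ) : ℝ) ≤ 2 * ρ * Z + 1 := by
    rw [Int.card_Icc]
    have h3 : (((⌊(x + ρ) * Z⌋ + 1 - ⌈(x - ρ) * Z⌉).toNat : ℤ) : ℝ) =
        max ((⌊(x + ρ) * Z⌋ : ℝ) + 1 - ⌈(x - ρ) * Z⌉) 0 := by
      rw [Int.toNat_eq_max]
      push_cast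
      rfl
    have h4 : (((⌊(x + ρ) * Z⌋ + 1 - ⌈(x - ρ) * Z⌉).toNat : ℕ) : ℝ) =
        max ((⌊(x + ρ) * Z⌋ : ℝ) + 1 - ⌈(x - ρ) * Z⌉) 0 := by
      rw [← h3]
      push_cast
      rfl
    rw [h4]
    apply max_le
    · have h5 := Int.floor_le ((x + ρ) * Z)
      have h6 := Int.le_ceil ((x - ρ) * Z)
      have h7 : (x + ρ) * Z - (x - ρ) * Z = 2 * ρ * Z := by ring
      linarith
    · positivity
  have h3 : (((range Z).filter (fun τ : ℕ => |(τ : ℝ) / Z - x| ≤ ρ)).card : ℝ) ≤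
      (((Icc ⌈(x - ρ) * Z⌉ ⌊(x + ρ) * Z⌋).card : ℕ) : ℝ) := by exact_mod_cast h1
  exact h3.trans h2

/-- the bad grid points -/
noncomputable def Bd (Z : ℕ) (T ρ : ℝ) : Finset ℕ :=
  (Icc 1 ⌊T⌋₊).biUnion fun q => (range (q + 1)).biUnion fun c =>
    (range Z).filter (fun τ : ℕ => |(τ : ℝ) / Z - (c : ℝ) / q| ≤ ρ)

lemma card_Bd (Z : ℕ) (hZ : 1 ≤ Z) (T ρ : ℝ) (hT : 1 ≤ T) (hρ : 0 ≤ ρ) (h : 1 ≤ ρ * Z) :
    ((Bd Z T ρ).card : ℝ) ≤ 6 * T ^ 2 * (ρ * Z) := by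
  have h1 : (Bd Z T ρ).card ≤ ∑ q ∈ Icc 1 ⌊T⌋₊, ∑ c ∈ range (q + 1),
      ((range Z).filter (fun τ : ℕ => |(τ : ℝ) / Z - (c : ℝ) / q| ≤ ρ)).card :=
    card_biUnion_le.trans (sum_le_sum fun q _ => card_biUnion_le)
  have h2 : ((Bd Z T ρ).card : ℝ) ≤ ∑ q ∈ Icc 1 ⌊T⌋₊, ∑ c ∈ range (q + 1),
      (((range Z).filter (fun τ : ℕ => |(τ : ℝ) / Z - (c : ℝ) / q| ≤ ρ)).card : ℝ) := by
    exact_mod_cast h1
  refine h2.trans ?_
  have h3 : ∀ q ∈ Icc 1 ⌊T⌋₊, ∑ c ∈ range (q + 1),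
      (((range Z).filter (fun τ : ℕ => |(τ : ℝ) / Z - (c : ℝ) / q| ≤ ρ)).card : ℝ) ≤
        (2 * T) * (3 * (ρ * Z)) := by
    intro q hq
    rw [mem_Icc] at hq
    have hqT : (q : ℝ) ≤ T := (Nat.le_floor_iff (by linarith)).1 hq.2
    calc ∑ c ∈ range (q + 1),
          (((range Z).filter (fun τ : ℕ => |(τ : ℝ) / Z - (c : ℝ) / q| ≤ ρ)).card : ℝ)
        ≤ ∑ _c ∈ range (q + 1), 3 * (ρ * Z) := by
          refine sum_le_sum fun c _ => (near Z hZ _ ρ hρ).trans ?_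
          linarith
      _ = ((q : ℝ) + 1) * (3 * (ρ * Z)) := by
          rw [sum_const, card_range, nsmul_eq_mul]
          push_cast
          ring
      _ ≤ _ := by
          apply mul_le_mul_of_nonneg_right (by linarith) (by positivity)
  refine (sum_le_sum h3).trans ?_
  rw [sum_const, Nat.card_Icc, nsmul_eq_mul, Nat.add_sub_cancel]
  have h4 : ((⌊T⌋₊ : ℕ) : ℝ) ≤ T := Nat.floor_le (by linarith)
  calc ((⌊T⌋₊ : ℕ) : ℝ) * ((2 * T) * (3 * (ρ * Z))) ≤ T * ((2 * T) * (3 * (ρ * Z))) := by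
        apply mul_le_mul_of_nonneg_right h4 (by positivity)
    _ = _ := by ring

/-- the dichotomy -/
lemma dicho (N A Z : ℕ) (hN : 1 ≤ N) (hA : 1 ≤ A) (hZ : 1 ≤ Z) (T : ℝ) (hT : 1 ≤ T)
    (hTA : T ≤ A * N) (τ : ℕ) (hτ : τ ∈ range Z) (hb : τ ∉ Bd Z T (T / (A * N))) :
    EK A N ((τ : ℝ) / Z) ≤ 2400 * ((1 + Real.log (A * N)) ^ 2 * ((A * N) / T + N)) := by
  have hN0 : (1 : ℝ) ≤ N := by exact_mod_cast hN
  have hA0 : (1 : ℝ) ≤ A := by exact_mod_cast hA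
  have hAN : (1 : ℝ) ≤ A * N := by nlinarith
  have hT0 : 0 < T := by linarith
  have hZ0 : (0 : ℝ) < Z := by exact_mod_cast hZ
  have h1T : 1 ≤ A * N / T := by rwa [le_div_iff₀ hT0, one_mul]
  set n : ℕ := ⌊(A * N : ℝ) / T⌋₊ with hn
  have hn1 : 0 < n := Nat.floor_pos.2 h1T
  obtain ⟨x, hx1, hx2⟩ := Real.exists_rat_abs_sub_le_and_den_le ((τ : ℝ) / Z) hn1
  have hden : 1 ≤ x.den := x.den_pos
  have hden0 : (1 : ℝ) ≤ x.den := by exact_mod_cast hden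
  have hxc : ((x : ℚ) : ℝ) = (x.num : ℝ) / x.den := by
    exact_mod_cast (Rat.num_div_den x).symm
  rw [hxc] at hx1
  have hn0 : (x.den : ℝ) ≤ n := by exact_mod_cast hx2
  have hnA : (n : ℝ) ≤ A * N / T := Nat.floor_le (by linarith)
  have hnA' : A * N / T < n + 1 := Nat.lt_floor_add_one _
  rcases le_or_gt T x.den with h | h
  · refine E_big N A hN hA T hT hden ?_ (hx1.trans ?_) h (hn0.trans hnA)
    · rw [Int.isCoprime_iff_gcd_eq_one]
      have := x.reduced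
      rwa [Nat.Coprime, ← Int.natAbs_natCast x.den, ← Int.gcd_def] at this
    · apply one_div_le_one_div_of_le (by positivity)
      nlinarith
  · exfalso
    apply hb
    rw [mem_range] at hτ
    have hτZ : (τ : ℝ) / Z < 1 := by
      rw [div_lt_one hZ0]
      exact_mod_cast hτ
    have hτ0 : 0 ≤ (τ : ℝ) / Z := by positivity
    have hden' : (0 : ℝ) < x.den := by linarith
    have h2 : |(τ : ℝ) / Z * x.den - x.num| ≤ 1 / 2 := by
      have e : (τ : ℝ) / Z * x.den - x.num = ((τ : ℝ) / Z - (x.num : ℝ) / x.den) * x.den := by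
        field_simp
      rw [e, abs_mul, abs_of_pos hden']
      calc |(τ : ℝ) / Z - (x.num : ℝ) / x.den| * x.den ≤ 1 / ((n + 1) * x.den) * x.den :=
            mul_le_mul_of_nonneg_right hx1 hden'.le
        _ = 1 / (n + 1) := by field_simp
        _ ≤ 1 / 2 := by
            apply one_div_le_one_div_of_le (by norm_num)
            have : (1 : ℝ) ≤ n := by exact_mod_cast hn1
            linarith
    rw [abs_le] at h2
    have h3 : 0 ≤ x.num := by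
      by_contra hneg
      have h4 : x.num ≤ -1 := by omega
      have h5 : (x.num : ℝ) ≤ -1 := by exact_mod_cast h4
      have h6 : 0 ≤ (τ : ℝ) / Z * x.den := by positivity
      linarith [h2.2]
    have h4 : x.num ≤ x.den := by
      by_contra hneg
      have h4 : (x.den : ℤ) + 1 ≤ x.num := by omega
      have h5 : (x.den : ℝ) + 1 ≤ x.num := by exact_mod_cast h4
      have h6 : (τ : ℝ) / Z * x.den ≤ x.den := by nlinarith
      linarith [h2.1]
    obtain ⟨c, hc⟩ := Int.eq_ofNat_of_zero_le h3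
    have hcd : c ≤ x.den := by omega
    rw [Bd, mem_biUnion]
    refine ⟨x.den, mem_Icc.2 ⟨hden, (Nat.le_floor_iff hT0.le).2 h.le⟩, ?_⟩
    rw [mem_biUnion]
    refine ⟨c, mem_range.2 (by omega), ?_⟩
    rw [mem_filter]
    refine ⟨mem_range.2 hτ, ?_⟩
    have hcx : (c : ℝ) = x.num := by rw [hc]; simp
    rw [hcx]
    refine hx1.trans ?_
    rw [div_le_div_iff₀ (by positivity) (by positivity)]
    have h5 : A * N / T ≤ (n + 1) * x.den := by
      nlinarith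
    rw [div_le_iff₀ hT0] at h5
    linarith

/-- **FB** -/
theorem s_FB : S_FB := by
  refine ⟨4800, by norm_num, ?_⟩
  intro f Z δ hδ0 hδ N A B hN hA hB hANZ I hI w W hw s hs T hT hTA
  have hN0 : (1 : ℝ) ≤ N := by exact_mod_cast hN
  have hA0 : (1 : ℝ) ≤ A := by exact_mod_cast hA
  have hAN : (1 : ℝ) ≤ A * N := by nlinarith
  have hT0 : 0 < T := by linarith
  have hf0 : 0 ≤ ∑ n ∈ Icc 1 Z, f n ^ 2 := sum_nonneg fun _ _ => sq_nonneg _
  have hrhs : 0 ≤ 4800 * N * W ^ 2 * ((1 + Real.log (A * N)) ^ 2 * ((A * N) / T + N) *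
      (∑ n ∈ Icc 1 Z, f n ^ 2) + δ ^ 2 * T ^ 3) := by positivity
  rcases I.eq_empty_or_nonempty with rfl | ⟨i₀, hi₀⟩
  · simp only [sum_empty, ne_eq, OfNat.ofNat_ne_zero, not_false_eq_true, zero_pow, sum_const_zero,
      mul_zero, zero_mul, zero_add]
    exact hrhs
  have hBZ : B ≤ Z := by
    have := hs i₀ hi₀
    omega
  have hZ : 1 ≤ Z := hB.trans hBZ
  have hZ0 : (0 : ℝ) < Z := by exact_mod_cast hZ
  set X : ℝ := 2400 * ((1 + Real.log (A * N)) ^ 2 * ((A * N) / T + N)) with hX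
  have hX0 : 0 ≤ X := by positivity
  -- Bessel for every slope
  have h1 : ∑ a ∈ Icc 1 A, ∑ b ∈ Icc 1 B, (∑ i ∈ I, w i * f (s i + a * i + b)) ^ 2 ≤
      (Z : ℝ)⁻¹ * ∑ τ ∈ range Z, ‖Fh f Z ((τ : ℝ) / Z)‖ ^ 2 *
        (A * (∑ i ∈ I, w i ^ 2) + 2 * W ^ 2 * N * EK A N ((τ : ℝ) / Z)) := by
    have h2 : ∀ a ∈ Icc 1 A, ∑ b ∈ Icc 1 B, (∑ i ∈ I, w i * f (s i + a * i + b)) ^ 2 ≤
        (Z : ℝ)⁻¹ * ∑ τ ∈ range Z, ‖Fh f Z ((τ : ℝ) / Z)‖ ^ 2 *
          ‖Sh I w (fun i => s i + a * i) ((τ : ℝ) / Z)‖ ^ 2 := by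
      intro a ha
      rw [mem_Icc] at ha
      refine bessel f Z B hB hBZ I w (fun i => s i + a * i) fun i hi => ?_
      have h3 := hs i hi
      have h4 : a * i ≤ A * i := Nat.mul_le_mul_right i ha.2
      show s i + a * i + B ≤ Z
      omega
    refine (sum_le_sum h2).trans ?_
    rw [← mul_sum, sum_comm]
    apply mul_le_mul_of_nonneg_left _ (by positivity)
    refine sum_le_sum fun τ _ => ?_
    rw [← mul_sum]
    exact mul_le_mul_of_nonneg_left (slopes N A I hI w W hw s _) (by positivity)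
  -- Parseval for `f`
  have h2 : ∑ τ ∈ range Z, ‖Fh f Z ((τ : ℝ) / Z)‖ ^ 2 = Z * ∑ n ∈ Icc 1 Z, f n ^ 2 := by
    have h3 := parseval_Icc Z Z hZ le_rfl (fun n => ((f n : ℝ) : ℂ)) 1 (Or.inl rfl)
    have h4 : ∀ n ∈ Icc 1 Z, ‖((f n : ℝ) : ℂ)‖ ^ 2 = f n ^ 2 := by
      intro n _
      rw [Complex.norm_real, Real.norm_eq_abs, sq_abs]
    rw [sum_congr rfl h4] at h3
    rw [← h3]
    refine sum_congr rfl fun τ _ => ?_
    rw [Fh]
    congr 2
    refine sum_congr rfl fun n _ => ?_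
    congr 2
    push_cast
    ring
  -- the bad points
  have hρ : 0 ≤ T / (A * N) := by positivity
  have hρZ : 1 ≤ T / (A * N) * Z := by
    have h3 : ((A : ℝ) * N) ≤ Z := by exact_mod_cast hANZ
    rw [div_mul_eq_mul_div, le_div_iff₀ (by positivity)]
    nlinarith
  have h3 : ∑ τ ∈ range Z, ‖Fh f Z ((τ : ℝ) / Z)‖ ^ 2 * EK A N ((τ : ℝ) / Z) ≤
      X * (Z * ∑ n ∈ Icc 1 Z, f n ^ 2) + 18 * δ ^ 2 * T ^ 3 * Z := by
    have h4 : ∀ τ ∈ range Z, ‖Fh f Z ((τ : ℝ) / Z)‖ ^ 2 * EK A N ((τ : ℝ) / Z) ≤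
        X * ‖Fh f Z ((τ : ℝ) / Z)‖ ^ 2 +
          (if τ ∈ Bd Z T (T / (A * N)) then δ ^ 2 * (3 * (A * N)) else 0) := by
      intro τ hτ
      split_ifs with hb
      · have h5 : ‖Fh f Z ((τ : ℝ) / Z)‖ ≤ δ := hδ _
        have h6 := EK_le A N ((τ : ℝ) / Z)
        have h7 : ‖Fh f Z ((τ : ℝ) / Z)‖ ^ 2 ≤ δ ^ 2 := pow_le_pow_left₀ (norm_nonneg _) h5 2
        have h8 : ‖Fh f Z ((τ : ℝ) / Z)‖ ^ 2 * EK A N ((τ : ℝ) / Z) ≤ δ ^ 2 * (3 * (A * N)) :=
          mul_le_mul h7 h6 (EK_nonneg _ _ _) (sq_nonneg _)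
        have h9 : 0 ≤ X * ‖Fh f Z ((τ : ℝ) / Z)‖ ^ 2 := by positivity
        linarith
      · have h5 := dicho N A Z hN hA hZ T hT hTA τ hτ hb
        rw [add_zero, mul_comm X]
        exact mul_le_mul_of_nonneg_left h5 (sq_nonneg _)
    refine (sum_le_sum h4).trans ?_
    rw [sum_add_distrib, ← mul_sum, h2]
    have h5 : ∑ τ ∈ range Z, (if τ ∈ Bd Z T (T / (A * N)) then δ ^ 2 * (3 * ((A : ℝ) * N)) else 0) ≤
        18 * δ ^ 2 * T ^ 3 * Z := by
      rw [← sum_filter, sum_const, nsmul_eq_mul]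
      have h6 : (((range Z).filter (fun τ => τ ∈ Bd Z T (T / (A * N)))).card : ℝ) ≤
          6 * T ^ 2 * (T / (A * N) * Z) := by
        refine le_trans ?_ (card_Bd Z hZ T _ hT hρ hρZ)
        have : ((range Z).filter (fun τ => τ ∈ Bd Z T (T / (A * N)))).card ≤
            (Bd Z T (T / (A * N))).card :=
          card_le_card fun τ hτ => (mem_filter.1 hτ).2
        exact_mod_cast this
      calc (((range Z).filter (fun τ => τ ∈ Bd Z T (T / (A * N)))).card : ℝ) *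
            (δ ^ 2 * (3 * (A * N)))
          ≤ 6 * T ^ 2 * (T / (A * N) * Z) * (δ ^ 2 * (3 * (A * N))) :=
            mul_le_mul_of_nonneg_right h6 (by positivity)
        _ = _ := by
          have : (A : ℝ) * N ≠ 0 := by positivity
          field_simp
          ring
    linarith
  refine h1.trans ?_
  have h4 : ∑ τ ∈ range Z, ‖Fh f Z ((τ : ℝ) / Z)‖ ^ 2 *
      (A * (∑ i ∈ I, w i ^ 2) + 2 * W ^ 2 * N * EK A N ((τ : ℝ) / Z)) =
      (A * (∑ i ∈ I, w i ^ 2)) * (∑ τ ∈ range Z, ‖Fh f Z ((τ : ℝ) / Z)‖ ^ 2) +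
      2 * W ^ 2 * N * ∑ τ ∈ range Z, ‖Fh f Z ((τ : ℝ) / Z)‖ ^ 2 * EK A N ((τ : ℝ) / Z) := by
    rw [mul_sum (range Z) _ (A * (∑ i ∈ I, w i ^ 2)), mul_sum (range Z) _ (2 * W ^ 2 * N),
      ← sum_add_distrib]
    refine sum_congr rfl fun τ _ => ?_
    ring
  rw [h4, h2]
  have h5 : (Z : ℝ)⁻¹ * ((A * (∑ i ∈ I, w i ^ 2)) * (Z * ∑ n ∈ Icc 1 Z, f n ^ 2) +
      2 * W ^ 2 * N * ∑ τ ∈ range Z, ‖Fh f Z ((τ : ℝ) / Z)‖ ^ 2 * EK A N ((τ : ℝ) / Z)) ≤
      (Z : ℝ)⁻¹ * ((A * (∑ i ∈ I, w i ^ 2)) * (Z * ∑ n ∈ Icc 1 Z, f n ^ 2) +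
      2 * W ^ 2 * N * (X * (Z * ∑ n ∈ Icc 1 Z, f n ^ 2) + 18 * δ ^ 2 * T ^ 3 * Z)) := by
    gcongr
  refine h5.trans ?_
  have h6 : (Z : ℝ)⁻¹ * ((A * (∑ i ∈ I, w i ^ 2)) * (Z * ∑ n ∈ Icc 1 Z, f n ^ 2) +
      2 * W ^ 2 * N * (X * (Z * ∑ n ∈ Icc 1 Z, f n ^ 2) + 18 * δ ^ 2 * T ^ 3 * Z)) =
      A * (∑ i ∈ I, w i ^ 2) * (∑ n ∈ Icc 1 Z, f n ^ 2) +
      2 * W ^ 2 * N * (X * (∑ n ∈ Icc 1 Z, f n ^ 2) + 18 * (δ ^ 2 * T ^ 3)) := by
    field_simp
  rw [h6, hX]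
  have h7 : 0 ≤ W ^ 2 * N * (δ ^ 2 * T ^ 3) := by positivity
  nlinarith [h7]

end Pool.Agent.L7h56.AV
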